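import Pool.Agent.U543.FibMain

/-!
Relations of bounded degree and height between the periods of the fibres of arbitrary families. Let `P` be the period
matrix of any family over a connected open subset `U` of `ℂ ^ (d + 1)` such that `ℂ(x)` is algebraically closed in
`ℂ(x, P)`; for a smooth projective family this means that the Zariski closure of the monodromy group is connected. There
is no assumption on the monodromy group itself, or on the relations between the functions. For almost all points `s` all
polynomial relations of bounded degree and height, over the field of definition of `s`, between the entries of `P(s)`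
hold on the fibre at `s` of the `ℚ̄`-Zariski closure of the graph of `P`; and also with additional complex numbers `ξ a`
in the relations, if the closure is taken over the field generated by `ℚ̄` and the `ξ a`.
-/

namespace Pool.Agent.Results.MP_290158_ag.ArbitraryFamilies

open Filter
open Pool.Agent.U543.GD (Family Height Covered)
open Pool.Agent.U543.FD (Exceptional)

/-- **Period relations in arbitrary families.** For almost all algebraic points of a family the relations of bounded
degree and height come from the Zariski closure of the graph of the period matrix. -/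
theorem result (d n n' : ℕ) (U : Set (Fin (d + 1) → ℂ)) (P : (Fin (d + 1) → ℂ) → Matrix (Fin n) (Fin n') ℂ)
    (h : Family U P) :
    ∃ (ω : ℝ → ℕ) (T₀ : ℝ), Tendsto ω atTop atTop ∧ Monotone ω ∧ ∀ T, T₀ ≤ T → 0 < ω T ∧
      ∀ (K : Type) [Field K] [NumberField K], Module.finrank ℚ K ≤ ω T → ∀ (io : K →+* ℂ) (ξ : Fin (ω T) → ℂ),
        Covered ⌊T ^ ((ω T : ℝ)⁻¹)⌋₊ ⌊T ^ ((ω T : ℝ)⁻¹)⌋₊
          ((fun (s : Fin (d + 1) → K) j => io (s j)) '' Exceptional U P (ω T) K io ξ T) ∧
        (Exceptional U P (ω T) K io ξ T).Finite ∧
        ((Exceptional U P (ω T) K io ξ T).ncard : ℝ) ≤ T ^ ((ω T : ℝ)⁻¹) * ((Height K T).ncard : ℝ) ^ d := by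
  obtain ⟨ω, T₀, h1, h2, h3⟩ := Pool.Agent.U543.FD.main h
  refine ⟨ω, T₀, h1, h2, fun T hT => ⟨(h3 T hT).1, ?_⟩⟩
  intro K _ _ hK io ξ
  have h4 := (h3 T hT).2 K hK io ξ
  rw [Fintype.card_fin, Nat.add_sub_cancel] at h4
  exact h4

end Pool.Agent.Results.MP_290158_ag.ArbitraryFamilies
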