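import Pool.Agent.U536.CF.TU
import Pool.Agent.Results.MP_290158_ag.MultiplicativeValues

/-!
# Period relations in the hypergeometric families at integers with large common factors with the values of multiplicative functions

Let `F_1, ..., F_k` be positive multiplicative functions of at most polynomial growth such that `F_i p ≤ M p` for the
large primes `p`, with different values at different large primes; for example Euler's function or the sum of the
divisors. Let `b < 1` and `0 ≤ c < 2 b - 1`. Let `β_1, …, β_g` be rational numbers which are not integers, `V` any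
`ℚ`-space of constants of dimension `≤ D` and `Ω_i` any constant matrices. For all tuples `m` in `[1, N]^k` but `N^k exp
(-(log N)^c)`, for EVERY tuple `w` of integers `w_i ≥ exp ((log N)^b)` such that `gcd(w_i, F_i(m_i)) ≥ w_j^ρ` for all `i`,
`j`, the tuple of the fibres `z_i = 1 / w_i` is not exceptional: there are no exceptional relations of degree `≤ δ`
between the logarithms and the periods of the fibres, with coefficients in `L V`, `L` any number field of degree `≤ d`; `ρ
< 1` depends only on `β`, `k`, `d`, `δ`, `D`, and the bound `N ≥ N₀` does not depend on `V` and the `Ω_i`. The tuples `w`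
include all tuples of large divisors `w_i` of the `F_i(m_i)` of comparable size and their multiples by small integers.

Proof. But for few exceptional `m_i ≤ N`, the number of `m_i` with `g ∣ F_i(m_i)` is at most `N τ_J(g) / g` up to a factor
`exp ((log N)^s)`, `J = (log N)^a`, `a < s < b`, for all `g`: write `m_i = k u` with `u` squarefree and composed of primes
larger than `N^(1/J)`, `k ≤ exp (4 (log N)^a)`. If `w` is an exceptional tuple with `w_i ≤ X`, then the `g_i = gcd(w_i,
F_i(m_i))` are divisors of the `w_i` of size `≥ (X/2)^ρ`; there are few such tuples of divisors, and the inequality `τ_J^q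
≤ τ_K` for `K ≥ J^q` with Hölder's inequality for tuples bounds the sum of `∏ τ_J(g_i) / g_i`. The file
`MultiplicativeValues` of the starting library treats the tuples `w = (F_i(m_i))` only, with `N^k / (log N)^U` exceptions.
-/

set_option autoImplicit false

namespace Pool.Agent.Results.MP_290158_ag.CommonFactors

open Pool.Agent.Results.MP_290158_ag.HypergeometricAlgebraicPoints (Exceptional House)
open Pool.Agent.N733.TG (LM lm_totient lm_sigma)
open Pool.Agent.U536.CF (CommonT avoidT commonT_of_dvd exists_rho)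
open Pool.Agent.Results.MP_290158_ag.MultiplicativeValues (house_nat house_finite)

/-- **Period relations in the hypergeometric families at integers with large common factors with the values of multiplicative
functions.** Let `β_1, …, β_g` be rational numbers which are not integers, `V` any `ℚ`-space of constants of dimension `≤
D` and `Ω_i` any constant matrices. Let the `F_i` be multiplicative and positive, of at most polynomial growth, with `F_i
p ≤ M p` at the large primes, and injective there. Let `b < 1` and `0 ≤ c < 2 b - 1`. For all large `N`, for all tuples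
`m` in `[1, N]^k` but `N^k exp (-(log N)^c)`, for EVERY tuple `w` of integers `w_i ≥ exp ((log N)^b)` with `gcd(w_i,
F_i(m_i)) ≥ w_j^ρ` for all `i`, `j`, the tuple of the fibres `z_i = 1 / w_i` is not exceptional: there are no exceptional
relations of degree `≤ δ` between the logarithms and the periods of the fibres, with coefficients in `L V`, `L` any number
field of degree `≤ d`; `ρ < 1` depends only on `β`, `k`, `d`, `δ`, `D`, and the bound `N ≥ N₀` does not depend on `V` and
the `Ω_i`. Tuples of divisors `w_i ≥ exp ((log N)^b)` of the `F_i(m_i)` with `w_j^ρ ≤ w_i` for all `i`, `j` are such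
tuples. Euler's function and the sum of the divisors are examples of the `F_i`. -/
theorem result :
    (∀ g : ℕ, 1 ≤ g → ∀ β : Fin g → ℚ, (∀ j, ∀ a : ℤ, β j ≠ a) → ∀ k d δ D : ℕ, 1 ≤ k →
      ∃ ρ : ℝ, 0 < ρ ∧ ρ < 1 ∧ ∀ F : Fin k → ℕ → ℕ, (∀ i, LM (F i)) → ∀ b c : ℝ, b < 1 → 0 ≤ c → c < 2 * b - 1 →
      ∃ N₀ : ℕ, ∀ N : ℕ, N₀ ≤ N → ∀ V : Submodule ℚ ℂ, Module.Finite ℚ V → Module.finrank ℚ V ≤ D →
      ∀ Ω : Fin k → Matrix (Fin (2 * g)) (Fin (2 * g)) ℂ,
      ({m : Fin k → ℕ | (∀ i, 1 ≤ m i ∧ m i ≤ N) ∧ ¬ ∀ w : Fin k → ℕ, CommonT F b ρ N m w →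
        ¬ Exceptional δ d V β Ω (fun i => ((w i : ℕ) : ℂ))}.ncard : ℝ) ≤ (N : ℝ) ^ k * Real.exp (-(Real.log N ^ c))) ∧
    (LM Nat.totient ∧ LM (fun m => ∑ d ∈ m.divisors, d)) ∧
    ∀ (k : ℕ) (F : Fin k → ℕ → ℕ) (b ρ : ℝ) (N : ℕ) (m w : Fin k → ℕ), (∀ i, Real.exp (Real.log N ^ b) ≤ (w i : ℝ)) →
      (∀ i, w i ∣ F i (m i)) → (∀ i j, (w j : ℝ) ^ ρ ≤ (w i : ℝ)) → CommonT F b ρ N m w := by
  refine ⟨?_, ⟨lm_totient, lm_sigma⟩, fun k F b ρ N m w h1 h2 h3 => commonT_of_dvd h1 h2 h3⟩
  classical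
  intro g hg β hβ k d δ D hk
  obtain ⟨c, C, hc, h⟩ := (Pool.Agent.Results.MP_290158_ag.HypergeometricAlgebraicPoints.result hg β hβ).2.2
    k 1 d δ D le_rfl
  obtain ⟨ρ, hρ0, hρ1, hρ⟩ := exists_rho hk hc
  refine ⟨ρ, hρ0, hρ1, fun F hF b c₁ hb hc₁ hcb => ?_⟩
  obtain ⟨N₀, hN₀⟩ := avoidT hk hF hρ0 hρ1.le hρ (|C| * 3 ^ k) hb hc₁ hcb
  refine ⟨N₀, fun N hN V hV hVD Ω => ?_⟩
  refine le_trans (le_of_eq ?_) (hN₀ N hN {w : Fin k → ℕ | Exceptional δ d V β Ω (fun i => ((w i : ℕ) : ℂ))} (fun X hX => by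
    have hX1 : (1 : ℝ) ≤ X := by exact_mod_cast hX
    have h1 := h V hV hVD Ω X hX
    obtain ⟨hf1, hf2⟩ := house_finite X
    have hfin : {ξ : Fin k → ℂ | (∀ i, House 1 X (ξ i)) ∧ Exceptional δ d V β Ω ξ}.Finite := by
      refine (Set.Finite.pi' (fun _ : Fin k => hf1)).subset ?_
      intro ξ hξ i
      exact hξ.1 i
    have h2 : {w : Fin k → ℕ | (∀ i, 2 ≤ w i ∧ w i ≤ X) ∧ w ∈ {w : Fin k → ℕ | Exceptional δ d V β Ω
        (fun i => ((w i : ℕ) : ℂ))}}.ncard ≤
        {ξ : Fin k → ℂ | (∀ i, House 1 X (ξ i)) ∧ Exceptional δ d V β Ω ξ}.ncard := by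
      refine Set.ncard_le_ncard_of_injOn (fun (w : Fin k → ℕ) (i : Fin k) => ((w i : ℕ) : ℂ)) ?_ ?_ hfin
      · intro w hw
        exact ⟨fun i => house_nat (hw.1 i).2, hw.2⟩
      · intro a _ b _ hab
        funext i
        have := congrFun hab i
        simp only at this
        exact_mod_cast this
    have h3 : (((({ξ : ℂ | House 1 X ξ}.ncard : ℕ) : ℝ)) ^ k) ≤ (3 * (X : ℝ)) ^ k := by
      apply pow_le_pow_left₀ (by positivity)
      have : (({ξ : ℂ | House 1 X ξ}.ncard : ℕ) : ℝ) ≤ 2 * X + 1 := by exact_mod_cast hf2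
      linarith
    calc (({w : Fin k → ℕ | (∀ i, 2 ≤ w i ∧ w i ≤ X) ∧ w ∈ {w : Fin k → ℕ | Exceptional δ d V β Ω
          (fun i => ((w i : ℕ) : ℂ))}}.ncard : ℕ) : ℝ)
        ≤ (({ξ : Fin k → ℂ | (∀ i, House 1 X (ξ i)) ∧ Exceptional δ d V β Ω ξ}.ncard : ℕ) : ℝ) := by exact_mod_cast h2
      _ ≤ C * (X : ℝ) ^ (-c) * (({ξ : ℂ | House 1 X ξ}.ncard : ℕ) : ℝ) ^ k := h1
      _ ≤ |C| * (X : ℝ) ^ (-c) * (({ξ : ℂ | House 1 X ξ}.ncard : ℕ) : ℝ) ^ k := by
          gcongr
          exact le_abs_self C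
      _ ≤ |C| * (X : ℝ) ^ (-c) * (3 * (X : ℝ)) ^ k := by gcongr
      _ = |C| * 3 ^ k * (X : ℝ) ^ ((k : ℝ) - c) := by
          rw [mul_pow, show (k : ℝ) - c = -c + k by ring, Real.rpow_add (by linarith), Real.rpow_natCast]
          ring))
  congr 2
  ext m
  simp only [Set.mem_ofPred_eq]
  push Not
  refine and_congr Iff.rfl ⟨?_, ?_⟩
  · rintro ⟨w, h1, h2⟩
    exact ⟨w, h2, h1⟩
  · rintro ⟨w, h1, h2⟩
    exact ⟨w, h2, h1⟩

end Pool.Agent.Results.MP_290158_ag.CommonFactors
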