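import Pool.Agent.U405.RS.G5
import Pool.Agent.Results.MP_290158_ag.MultiplicativeValues

/-!
# Period relations in the hypergeometric families over values of multiplicative functions in thin sets

Let `F_1, …, F_k` be positive multiplicative functions of at most polynomial growth which for each `a ≥ 1` are injective at the
powers `p ^ a` of the large primes and at most `M p ^ a` there; for example Euler's function or the sum of the divisors. Let `β_1, …, β_m` be rational numbers which are not integers. Consider the fibres `z = 1 / ξ` of the hypergeometric family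
of Calabi–Yau type with the exponents `±β_j`. For almost all `v` in products of thin sets there are no exceptional
relations of degree `≤ δ` between the logarithms and the periods of the fibres `z_i = 1 / F_i(v_i)`, with coefficients in
`L V`, `L` any number field of degree `≤ d`, uniformly in the space `V` of constants of dimension `≤ D`.

The starting theorem `MultiplicativeValues` of this problem treats the average over all tuples `m ∈ [1, N]^k`. Here each `m_i` runs
over a thin set: the shifted primes `p + a_i`, `p ≤ x`, for an arbitrary integer `a_i`, or an interval `(u, u + h]` with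
`x^τ ≤ h ≤ x`, where `u ≤ x` and `1 - c / k < τ ≤ 1`; both kinds can be mixed. The tuples of values `(F_1(m_1), …, F_k(m_k))` are taken with large and
uneven multiplicities, so that the size of the exceptional set says nothing about them.

Proof. Own tool `Pool.Agent.U405.RS`. A thin set `S` has at most `B g^ω(n) |S| / n` multiples of `n` for every `n ≤ x^δ` (for the
shifted primes by the Brun-Titchmarsh inequality of the library). Write `m_i = n_i w_i` with `n_i` composed of the primes
`≤ z = x^(1 / J)`, `J` a small multiple of `log log x`. By Rankin's method one has `n_i ≤ x^η` for most `m_i` in `S_i`; and `w_i` has at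
most `J` prime factors and exponents `≤ J`, so that it is determined by `F_i(w_i)` up to `x^o(1)` possibilities. A slab of the
exceptional set is then covered by the fibres over one coordinate, and the saving `X^c` of the exceptional set is larger than the loss
`x^(k (1 - τ))` from the short intervals. The bound for the exceptional tuples is the starting theorem `HypergeometricAlgebraicPoints`.
-/

set_option autoImplicit false

namespace Pool.Agent.Results.MP_290158_ag.ThinTuples

open Pool.Agent.U405.RS
open Pool.Agent.Results.MP_290158_ag.HypergeometricAlgebraicPoints (Exceptional House)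
open Pool.Agent.Results.MP_290158_ag.MultiplicativeValues (house_nat house_finite)

/-- **Period relations of hypergeometric families over thin sets.** Let `β` be a finite non-empty family of rational numbers
which are not integers. For all `k ≥ 1`, `d`, `δ`, `D` there is `c > 0` such that for all `F_1, …, F_k` in the class `PM`, all `U` and,
uniformly, every `ℚ`-space `V` of constants of dimension `≤ D` and all constant matrices `Ω_i`, in the sense of `ThinAll c F U`
(with a saving of `(log x)^U`, uniformly in the parameter, for almost all `m` in all products `S_1 × ⋯ × S_k` of sets of shifted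
primes `p + a_i`, `p ≤ x`, and intervals `(u, u + h]`, `u ≤ x`, `x^τ ≤ h ≤ x`, whenever `0 < τ ≤ 1`, `k τ > k - c`)
the numbers `ξ_i = F_i(v_i)` are at least `2` and the tuple of the fibres `z_i = 1 / ξ_i` is not exceptional. Euler's function,
the sum of the divisors and the identity are in the class. -/
theorem result {m : ℕ} (hm : 1 ≤ m) (β : Fin m → ℚ) (hβ : ∀ j, ∀ a : ℤ, β j ≠ a) :
    (∀ k d δ D : ℕ, 1 ≤ k → ∃ c : ℝ, 0 < c ∧ ∀ F : Fin k → ℕ → ℕ, (∀ i, PM (F i)) → ∀ U : ℕ,
      ThinAll c F U (fun (p : Submodule ℚ ℂ × (Fin k → Matrix (Fin (2 * m)) (Fin (2 * m)) ℂ)) (v : Fin k → ℕ) =>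
        (Module.Finite ℚ p.1 ∧ Module.finrank ℚ p.1 ≤ D) →
        (∀ i, 2 ≤ v i) ∧ ¬ Exceptional δ d p.1 β p.2 (fun i => ((v i : ℕ) : ℂ)))) ∧
    (PM Nat.totient ∧ PM (fun m => ∑ d ∈ m.divisors, d) ∧ PM (fun m => m)) := by
  classical
  refine ⟨fun k d δ D hk => ?_, examplesT⟩
  obtain ⟨c, C, hc, h⟩ := (Pool.Agent.Results.MP_290158_ag.HypergeometricAlgebraicPoints.result hm β hβ).2.2
    k 1 d δ D le_rfl
  refine ⟨c, hc, fun F hF U => thinAll_if hk hF hc (|C| * 3 ^ k)
    (fun p : Submodule ℚ ℂ × (Fin k → Matrix (Fin (2 * m)) (Fin (2 * m)) ℂ) =>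
      Module.Finite ℚ p.1 ∧ Module.finrank ℚ p.1 ≤ D)
    (fun (p : Submodule ℚ ℂ × (Fin k → Matrix (Fin (2 * m)) (Fin (2 * m)) ℂ)) (v : Fin k → ℕ) =>
      ¬ Exceptional δ d p.1 β p.2 (fun i => ((v i : ℕ) : ℂ))) (fun p hp X hX => ?_) U⟩
  obtain ⟨V, Ω⟩ := p
  obtain ⟨hV, hVD⟩ := hp
  dsimp only at hV hVD ⊢
  have hX1 : (1 : ℝ) ≤ X := by exact_mod_cast hX
  have h1 := h V hV hVD Ω X hX
  obtain ⟨hf1, hf2⟩ := house_finite X
  have hfin : {ξ : Fin k → ℂ | (∀ i, House 1 X (ξ i)) ∧ Exceptional δ d V β Ω ξ}.Finite := by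
    refine (Set.Finite.pi' (fun _ : Fin k => hf1)).subset ?_
    intro ξ hξ i
    exact hξ.1 i
  have h2 : {w : Fin k → ℕ | (∀ i, 2 ≤ w i ∧ w i ≤ X) ∧ ¬ ¬ Exceptional δ d V β Ω
      (fun i => ((w i : ℕ) : ℂ))}.ncard ≤
      {ξ : Fin k → ℂ | (∀ i, House 1 X (ξ i)) ∧ Exceptional δ d V β Ω ξ}.ncard := by
    refine Set.ncard_le_ncard_of_injOn (fun (w : Fin k → ℕ) (i : Fin k) => ((w i : ℕ) : ℂ)) ?_ ?_ hfin
    · intro w hw
      exact ⟨fun i => house_nat (hw.1 i).2, not_not.1 hw.2⟩
    · intro a _ b _ hab
      funext i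
      have := congrFun hab i
      simp only at this
      exact_mod_cast this
  have h3 : (((({ξ : ℂ | House 1 X ξ}.ncard : ℕ) : ℝ)) ^ k) ≤ (3 * (X : ℝ)) ^ k := by
    apply pow_le_pow_left₀ (by positivity)
    have : (({ξ : ℂ | House 1 X ξ}.ncard : ℕ) : ℝ) ≤ 2 * X + 1 := by exact_mod_cast hf2
    linarith
  calc (({w : Fin k → ℕ | (∀ i, 2 ≤ w i ∧ w i ≤ X) ∧ ¬ ¬ Exceptional δ d V β Ω
        (fun i => ((w i : ℕ) : ℂ))}.ncard : ℕ) : ℝ)
      ≤ (({ξ : Fin k → ℂ | (∀ i, House 1 X (ξ i)) ∧ Exceptional δ d V β Ω ξ}.ncard : ℕ) : ℝ) := by exact_mod_cast h2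
    _ ≤ C * (X : ℝ) ^ (-c) * (({ξ : ℂ | House 1 X ξ}.ncard : ℕ) : ℝ) ^ k := h1
    _ ≤ |C| * (X : ℝ) ^ (-c) * (({ξ : ℂ | House 1 X ξ}.ncard : ℕ) : ℝ) ^ k := by
        gcongr
        exact le_abs_self C
    _ ≤ |C| * (X : ℝ) ^ (-c) * (3 * (X : ℝ)) ^ k := by gcongr
    _ = |C| * 3 ^ k * (X : ℝ) ^ ((k : ℝ) - c) := by
        rw [mul_pow, show (k : ℝ) - c = -c + k by ring, Real.rpow_add (by linarith), Real.rpow_natCast]
        ring

end Pool.Agent.Results.MP_290158_ag.ThinTuples
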